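import Pool.Agent.H19.SYA.TA
import Pool.Agent.H19.SYA.TB
import Pool.Agent.H2.ST.Basic2

/-!
Symplectic torus actions on affine four-space (MP_51eb24_ag): row EXA.
-/

set_option autoImplicit false

namespace Pool.Agent.H79.SYA

open MvPolynomial Pool.Agent.H2.ST Pool.Agent.H15.TG Pool.Agent.H19.SYA

theorem mem_div {k : Type} [Field k] {W : ℤ → Submodule k (Pol k 2)} (hg : Gr W)
    {p Y : Pol k 2} {α n : ℤ} (hp : p ∈ W α) (hp0 : p ≠ 0) (h : p * Y ∈ W n) :
    Y ∈ W (n - α) := by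
  apply mem_of_cmp hg
  intro b hb
  have h1 := cmp_mul_of_mem hg hp Y b
  rw [mul_comm Y p, cmp_of_mem hg h, Finsupp.single_apply,
    if_neg (by intro h2; apply hb; omega)] at h1
  exact (mul_eq_zero.1 h1.symm).resolve_right hp0

theorem dvd_term {k : Type} [Field k] (r p q F D : Pol k 2) (hp : br r p = 0)
    (hq : br r q = 0) (hF : D ∣ br r F) (c : k) (e f g : ℕ) :
    D ∣ br r (C c * p ^ e * F ^ f * q ^ g) := by
  have h1 : br r (C c * p ^ e * F ^ f * q ^ g) =
      (C c * p ^ e * q ^ g * ((f : Pol k 2) * F ^ (f - 1))) * br r F := by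
    rw [br_mul, br_mul, br_mul, br_C, br_pow, br_pow, br_pow, hp, hq]
    ring
  rw [h1]
  exact hF.mul_left _

/-- the sum of the first terms -/
noncomputable def TS {k : Type} [Field k] (p q F0 : Pol k 2) (k1 l1 w a N0 N1 : ℕ)
    (c : ℕ → k) : Pol k 2 :=
  ∑ K ∈ Finset.Icc 1 k1, C (c K) * p ^ (k1 - w * K) * F0 ^ (a * K) *
    q ^ (l1 + N1 - N0 * (a * K))

theorem dvd_TS {k : Type} [Field k] (r p q F D : Pol k 2) (hp : br r p = 0)
    (hq : br r q = 0) (hF : D ∣ br r F) (k1 l1 w a N0 N1 : ℕ) (c : ℕ → k) :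
    D ∣ br r (TS p q F k1 l1 w a N0 N1 c) := by
  unfold TS
  rw [br_sum]
  exact Finset.dvd_sum fun K _ => dvd_term r p q F D hp hq hF _ _ _ _

theorem TS_update {k : Type} [Field k] (p q F : Pol k 2) (k1 l1 w a N0 N1 K0 : ℕ)
    (c : ℕ → k) (c' : k) (h0 : c K0 = 0) (hK : K0 ∈ Finset.Icc 1 k1) :
    TS p q F k1 l1 w a N0 N1 (Function.update c K0 c') = TS p q F k1 l1 w a N0 N1 c +
      C c' * p ^ (k1 - w * K0) * F ^ (a * K0) * q ^ (l1 + N1 - N0 * (a * K0)) := by
  unfold TS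
  rw [← Finset.add_sum_erase _ _ hK,
    ← Finset.add_sum_erase (Finset.Icc 1 k1) (fun K => C (c K) * p ^ (k1 - w * K) *
      F ^ (a * K) * q ^ (l1 + N1 - N0 * (a * K))) hK]
  have h1 : ∑ K ∈ (Finset.Icc 1 k1).erase K0, C (Function.update c K0 c' K) *
      p ^ (k1 - w * K) * F ^ (a * K) * q ^ (l1 + N1 - N0 * (a * K)) =
      ∑ K ∈ (Finset.Icc 1 k1).erase K0, C (c K) *
      p ^ (k1 - w * K) * F ^ (a * K) * q ^ (l1 + N1 - N0 * (a * K)) :=
    Finset.sum_congr rfl fun K hK' => by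
      rw [Function.update_of_ne (Finset.ne_of_mem_erase hK')]
  rw [h1, Function.update_self, h0, C_0]
  ring

/-- `p ^ J` divides the brackets of the root -/
theorem dvd_root {k : Type} [Field k] [CharZero k] {p q F0 : Pol k 2} (r : Pol k 2)
    (hp : Prime p) (hF : ¬ p ∣ F0) {m J n : ℕ} (hm : 0 < m) (h : p ^ J ∣ F0 ^ m - q ^ n)
    (hrp : br r p = 0) (hrq : br r q = 0) : p ^ J ∣ br r F0 := by
  obtain ⟨Z, hZ⟩ := h
  have h1 : (C (m : k) * F0 ^ (m - 1)) * br r F0 = p ^ J * br r Z := by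
    have h2 := congrArg (br r) hZ
    rw [br_sub, br_pow, br_pow, hrq, mul_zero, sub_zero, br_mul, br_pow, hrp, mul_zero,
      mul_zero, add_zero] at h2
    rw [← h2, map_natCast]
  have h3 : ¬ p ∣ C (m : k) * F0 ^ (m - 1) := by
    intro h4
    rcases hp.dvd_or_dvd h4 with h5 | h5
    · exact hp.not_isUnit (isUnit_of_dvd_unit h5
        ((isUnit_iff_ne_zero.2 (Nat.cast_ne_zero.2 hm.ne')).map C))
    · exact hF (hp.dvd_of_dvd_pow h5)
  exact hp.pow_dvd_of_dvd_mul_left J h3 ⟨_, h1⟩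

theorem dvd_of_pow {k : Type} [Field k] {p Y : Pol k 2} (hp : p ≠ 0) {t s : ℕ}
    (hts : t + 1 ≤ s) (h : p ^ s ∣ p ^ t * Y) : p ∣ Y := by
  have h1 : p ^ (t + 1) ∣ p ^ t * Y := (pow_dvd_pow p hts).trans h
  rw [pow_succ] at h1
  exact (mul_dvd_mul_iff_left (pow_ne_zero t hp)).1 h1

theorem pf_EXA (hCHR : T_CHR) : T_EXA := by
  classical
  intro k _ _ _ W H y wy p q S α β k1 l1 L _ _ Θ v w m J N0 F0 hy hpr hch hJ hR
  have hg : Gr W := hy.toGr
  have hp0 : p ≠ 0 := hpr.pg.ne_zero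
  have hα : (α : k) ≠ 0 := Int.cast_ne_zero.2 hpr.pa.ne'
  have hβ : (β : k) ≠ 0 := Int.cast_ne_zero.2 hpr.pb.ne'
  have hv0 : v 0 ≠ 0 := hch.ind.ne_zero 0
  have hpH : br p H = C (α : k) * p := by
    rw [hy.HE α p hpr.hg, MvPolynomial.smul_eq_C_mul]
  have hqH : br q H = C (β : k) * q := by
    rw [hy.HE β q hpr.hf, MvPolynomial.smul_eq_C_mul]
  have hpq : br p q = 0 := hpr.gf
  have hqp : br q p = 0 := by rw [br_anti, hpq, neg_zero]
  have hpp : br p p = 0 := br_self p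
  have hqq : br q q = 0 := br_self q
  have hTq : Θ q ≠ 0 := by rw [hch.tf]; exact pow_ne_zero _ hv0
  have hF0 : ¬ p ∣ F0 := by
    rw [← hch.ker, hR.tF]
    exact mul_ne_zero hv0 (pow_ne_zero _ hTq)
  have hFp : p ^ J ∣ br p F0 := dvd_root p hpr.pg hF0 hch.mp hR.dv hpp hpq
  have hFq : p ^ J ∣ br q F0 := dvd_root q hpr.pg hF0 hch.mp hR.dv hqp hqq
  set a : ℕ := α.toNat with ha
  have haα : (a : ℤ) = α := Int.toNat_of_nonneg hpr.pa.le
  set N1 : ℕ := N0 * (a * k1) with hN1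
  have hNle : ∀ K, K ≤ k1 → N0 * (a * K) ≤ N1 := fun K hK =>
    Nat.mul_le_mul_left _ (Nat.mul_le_mul_left _ hK)
  have hwp : 0 < w := hch.wp
  have hwβ : β = m * w := hch.wf
  have hbS1 : br p (q ^ (N1 + 1) * S) = 0 := by
    rw [br_mul, br_pow, hpq, hpr.pS]; ring
  have hbS2 : br q (q ^ (N1 + 1) * S) = p ^ k1 * q ^ (l1 + N1 + 1) := by
    rw [br_mul, br_pow, hqq, hpr.qS]; ring
  -- the induction
  have key : ∀ t : ℕ, t ≤ k1 → ∃ (c : ℕ → k) (Y : Pol k 2),
      (∀ K, c K ≠ 0 → 1 ≤ K ∧ w * K ≤ k1 ∧ k1 < w * K + t) ∧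
      Y ∈ W (((k1 - t : ℕ) : ℤ) * α + ((l1 + N1 : ℕ) : ℤ) * β) ∧
      q ^ (N1 + 1) * S = TS p q F0 k1 l1 w a N0 N1 c + p ^ t * Y := by
    intro t
    induction t with
    | zero =>
      intro _
      refine ⟨fun _ => 0, q ^ (N1 + 1) * S, fun K hK => absurd rfl hK, ?_, ?_⟩
      · have h1 := mul_mem_gr hg (pow_mem_gr hg hpr.hf (N1 + 1)) hpr.hS
        have h2 : (N1 + 1) • β + (k1 * α + l1 * β - β) =
            ((k1 - 0 : ℕ) : ℤ) * α + ((l1 + N1 : ℕ) : ℤ) * β := by
          rw [nsmul_eq_mul, Nat.sub_zero]; push_cast; ring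
        rwa [h2] at h1
      · unfold TS
        simp
    | succ t ih =>
      intro ht
      obtain ⟨c, Y, hc, hY, hE⟩ := ih (by omega)
      have hpY : p ∣ br p Y := by
        have h1 := congrArg (br p) hE
        rw [hbS1, br_add, br_mul p (p ^ t), br_pow, hpp, mul_zero, mul_zero, add_zero] at h1
        apply dvd_of_pow hp0 (t := t) (s := J) (by omega)
        have h2 : p ^ t * br p Y = - br p (TS p q F0 k1 l1 w a N0 N1 c) := by
          linear_combination -h1
        rw [h2]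
        exact (dvd_TS p p q F0 _ hpp hpq hFp _ _ _ _ _ _ _).neg_right
      have hqY : p ∣ br q Y := by
        have h1 := congrArg (br q) hE
        rw [hbS2, br_add, br_mul q (p ^ t), br_pow, hqp, mul_zero, mul_zero, add_zero] at h1
        apply dvd_of_pow hp0 (t := t) (s := k1) (by omega)
        have h2 : p ^ t * br q Y = p ^ k1 * q ^ (l1 + N1 + 1) -
            br q (TS p q F0 k1 l1 w a N0 N1 c) := by
          linear_combination -h1
        rw [h2]
        exact dvd_sub (dvd_mul_right _ _) ((pow_dvd_pow p (by omega)).trans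
          (dvd_TS q p q F0 _ hqp hqq hFq _ _ _ _ _ _ _))
      have hwt : ((k1 - (t + 1) : ℕ) : ℤ) * α + ((l1 + N1 : ℕ) : ℤ) * β =
          ((k1 - t : ℕ) : ℤ) * α + ((l1 + N1 : ℕ) : ℤ) * β - α := by
        have h1 : ((k1 - t : ℕ) : ℤ) = ((k1 - (t + 1) : ℕ) : ℤ) + 1 := by omega
        rw [h1]; ring
      by_cases hd : p ∣ Y
      · obtain ⟨Y', hY'⟩ := hd
        refine ⟨c, Y', fun K hK => ?_, ?_, ?_⟩
        · have h1 := hc K hK
          omega
        · rw [hwt]
          exact mem_div hg hpr.hg hp0 (hY' ▸ hY)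
        · rw [hE, hY']; ring
      · obtain ⟨c', j, hc', hΘ, hj⟩ := hCHR k W H p q α β L Θ v w m hch _ Y hY hpY hqY hd
        have hcop : IsCoprime (w : ℤ) α := by
          have h1 := hpr.cop
          rw [hwβ] at h1
          exact (IsCoprime.of_mul_right_right h1).symm
        have hdw : (w : ℤ) ∣ ((k1 - t : ℕ) : ℤ) := by
          apply hcop.dvd_of_dvd_mul_right
          refine ⟨j - (l1 + N1 : ℕ) * m, ?_⟩
          rw [hwβ] at hj
          linear_combination hj
        obtain ⟨K0, hK0⟩ := Int.natCast_dvd_natCast.1 hdw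
        have hK0p : 1 ≤ K0 := by
          rcases Nat.eq_zero_or_pos K0 with h1 | h1
          · rw [h1, Nat.mul_zero] at hK0; omega
          · exact h1
        have hK0w : K0 ≤ w * K0 := Nat.le_mul_of_pos_left K0 hwp
        have hK0k : K0 ≤ k1 := by omega
        have hjn : j = ((a * K0 + m * (l1 + N1) : ℕ) : ℤ) := by
          have h1 : ((k1 - t : ℕ) : ℤ) = w * K0 := by exact_mod_cast hK0
          rw [h1, hwβ, ← haα] at hj
          have h2 : (w : ℤ) ≠ 0 := by exact_mod_cast hwp.ne'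
          apply mul_right_cancel₀ h2
          rw [← hj]; push_cast; ring
        have hle := hNle K0 hK0k
        have hfs : N0 * (a * K0) + (l1 + N1 - N0 * (a * K0)) = l1 + N1 := by omega
        have hΘG : Θ (C c' * F0 ^ (a * K0) * q ^ (l1 + N1 - N0 * (a * K0))) = Θ Y := by
          have h1 : Θ (C c') = algebraMap k L c' := Θ.commutes c'
          rw [hΘ, hjn, zpow_natCast, map_mul, map_mul, h1, map_pow, map_pow, hR.tF, mul_pow,
            ← pow_mul, pow_add, pow_mul (v 0) m, ← hch.tf]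
          have h2 : Θ q ^ (N0 * (a * K0)) * Θ q ^ (l1 + N1 - N0 * (a * K0)) =
              Θ q ^ (l1 + N1) := by rw [← pow_add, hfs]
          rw [← h2]
          ring
        have hGW : C c' * F0 ^ (a * K0) * q ^ (l1 + N1 - N0 * (a * K0)) ∈
            W (((k1 - t : ℕ) : ℤ) * α + ((l1 + N1 : ℕ) : ℤ) * β) := by
          have h1 := mul_mem_gr hg (mul_mem_gr hg (algebraMap_mem_gr hg c')
            (pow_mem_gr hg hR.hF (a * K0))) (pow_mem_gr hg hpr.hf (l1 + N1 - N0 * (a * K0)))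
          have h2 : 0 + (a * K0) • ((w : ℤ) + N0 * β) +
              (l1 + N1 - N0 * (a * K0)) • β =
              ((k1 - t : ℕ) : ℤ) * α + ((l1 + N1 : ℕ) : ℤ) * β := by
            have h3 : ((k1 - t : ℕ) : ℤ) = w * K0 := by exact_mod_cast hK0
            have h4 : (N0 : ℤ) * (a * K0) + ((l1 + N1 - N0 * (a * K0) : ℕ) : ℤ) =
                ((l1 + N1 : ℕ) : ℤ) := by exact_mod_cast hfs
            rw [h3, ← h4, nsmul_eq_mul, nsmul_eq_mul, ← haα]
            push_cast
            ring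
          rwa [h2] at h1
        have hdv : p ∣ Y - C c' * F0 ^ (a * K0) * q ^ (l1 + N1 - N0 * (a * K0)) := by
          rw [← hch.ker, map_sub, hΘG, sub_self]
        obtain ⟨Y', hY'⟩ := hdv
        have hc0 : c K0 = 0 := by
          by_contra h1
          have := hc K0 h1
          omega
        refine ⟨Function.update c K0 c', Y', fun K hK => ?_, ?_, ?_⟩
        · by_cases hKK : K = K0
          · subst hKK
            exact ⟨hK0p, by omega, by omega⟩
          · rw [Function.update_of_ne hKK] at hK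
            have h1 := hc K hK
            omega
        · rw [hwt]
          refine mem_div hg hpr.hg hp0 ?_
          rw [← hY']
          exact (W _).sub_mem hY hGW
        · rw [TS_update _ _ _ _ _ _ _ _ _ _ _ _ hc0 (Finset.mem_Icc.2 ⟨hK0p, hK0k⟩), hE]
          have h1 : k1 - w * K0 = t := by omega
          rw [h1]
          linear_combination p ^ t * hY'
  obtain ⟨c, Y0, hc, hY0, hE⟩ := key k1 le_rfl
  have hpY : p ∣ br p Y0 := by
    have h1 := congrArg (br p) hE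
    rw [hbS1, br_add, br_mul p (p ^ k1), br_pow, hpp, mul_zero, mul_zero, add_zero] at h1
    apply dvd_of_pow hp0 (t := k1) (s := J) (by omega)
    have h2 : p ^ k1 * br p Y0 = - br p (TS p q F0 k1 l1 w a N0 N1 c) := by
      linear_combination -h1
    rw [h2]
    exact (dvd_TS p p q F0 _ hpp hpq hFp _ _ _ _ _ _ _).neg_right
  have hqY : p ∣ br q Y0 - q ^ (l1 + N1 + 1) := by
    have h1 := congrArg (br q) hE
    rw [hbS2, br_add, br_mul q (p ^ k1), br_pow, hqp, mul_zero, mul_zero, add_zero] at h1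
    apply dvd_of_pow hp0 (t := k1) (s := J) (by omega)
    have h2 : p ^ k1 * (br q Y0 - q ^ (l1 + N1 + 1)) =
        - br q (TS p q F0 k1 l1 w a N0 N1 c) := by
      linear_combination -h1
    rw [h2]
    exact (dvd_TS q p q F0 _ hqp hqq hFq _ _ _ _ _ _ _).neg_right
  have hCb : (C (1 / (β : k)) : Pol k 2) * C (β : k) = 1 := by
    rw [← C_mul, one_div_mul_cancel hβ, C_1]
  set Z : Pol k 2 := Y0 - C (1 / (β : k)) * q ^ (l1 + N1) * H with hZ
  have hpZ : p ∣ br p Z := by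
    have h1 : br p Z = br p Y0 - p * (C (1 / (β : k)) * q ^ (l1 + N1) * C (α : k)) := by
      rw [hZ, br_sub, br_mul p _ H, br_mul, br_pow, hpq, br_C, hpH]; ring
    rw [h1]
    exact dvd_sub hpY (dvd_mul_right _ _)
  have hqZ : p ∣ br q Z := by
    have h1 : br q Z = br q Y0 - q ^ (l1 + N1 + 1) := by
      rw [hZ, br_sub, br_mul q _ H, br_mul, br_pow, hqq, br_C, hqH]
      linear_combination -(q ^ (l1 + N1 + 1)) * hCb
    rw [h1]
    exact hqY
  have hZW : Z ∈ W (((l1 + N1 : ℕ) : ℤ) * β) := by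
    have h1 : Y0 ∈ W (((l1 + N1 : ℕ) : ℤ) * β) := by
      rwa [Nat.sub_self, Nat.cast_zero, zero_mul, zero_add] at hY0
    have h2 := mul_mem_gr hg (mul_mem_gr hg (algebraMap_mem_gr hg (1 / (β : k)))
      (pow_mem_gr hg hpr.hf (l1 + N1))) hy.H0
    have h3 : 0 + (l1 + N1) • β + 0 = ((l1 + N1 : ℕ) : ℤ) * β := by
      rw [nsmul_eq_mul]; ring
    rw [h3] at h2
    exact (W _).sub_mem h1 h2
  obtain ⟨κ, hκ⟩ : ∃ κ : k, p ∣ Z - C (1 / (β : k)) * q ^ (l1 + N1) * C κ := by
    by_cases hd : p ∣ Z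
    · exact ⟨0, by rwa [C_0, mul_zero, sub_zero]⟩
    · obtain ⟨c', j, hc', hΘ, hj⟩ := hCHR k W H p q α β L Θ v w m hch _ Z hZW hpZ hqZ hd
      refine ⟨c' * β, ?_⟩
      have hjn : j = ((m * (l1 + N1) : ℕ) : ℤ) := by
        rw [hwβ] at hj
        have h2 : (w : ℤ) ≠ 0 := by exact_mod_cast hwp.ne'
        apply mul_right_cancel₀ h2
        rw [← hj]; push_cast; ring
      have h1 : C (1 / (β : k)) * q ^ (l1 + N1) * C (c' * β) = C c' * q ^ (l1 + N1) := by
        rw [C_mul]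
        linear_combination (C c' * q ^ (l1 + N1)) * hCb
      have h2 : Θ (C c') = algebraMap k L c' := Θ.commutes c'
      rw [h1, ← hch.ker, map_sub, map_mul, h2, hΘ, hjn, zpow_natCast, map_pow, hch.tf,
        ← pow_mul, sub_self]
  obtain ⟨Y, hY⟩ := hκ
  have hfin : q ^ (N1 + 1) * S = TS p q F0 k1 l1 w a N0 N1 c +
      C (1 / (β : k)) * p ^ k1 * q ^ (l1 + N1) * (H + C κ) + p ^ (k1 + 1) * Y := by
    rw [hE]
    linear_combination p ^ k1 * hY + p ^ k1 * hZ
  -- the number K1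
  set K1 : ℕ := ((Finset.Icc 1 k1).filter fun K => c K ≠ 0).sup id with hK1
  have hK1a : K1 = 0 ∨ c K1 ≠ 0 := by
    rcases ((Finset.Icc 1 k1).filter fun K => c K ≠ 0).eq_empty_or_nonempty with h1 | h1
    · left
      rw [hK1, h1]; rfl
    · right
      obtain ⟨x, hx, hx2⟩ := Finset.exists_mem_eq_sup _ h1 id
      rw [hK1, hx2]
      exact (Finset.mem_filter.1 hx).2
  have hK1b : w * K1 ≤ k1 := by
    rcases hK1a with h1 | h1
    · rw [h1, Nat.mul_zero]; exact Nat.zero_le _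
    · exact (hc K1 h1).2.1
  have hK1c : K1 ≤ k1 := (Nat.le_mul_of_pos_left K1 hwp).trans hK1b
  have hTS : TS p q F0 k1 l1 w a N0 N1 c = ∑ K ∈ Finset.Icc 1 K1,
        C (c K) * p ^ (k1 - w * K) * F0 ^ (a * K) * q ^ (l1 + N1 - N0 * (a * K)) := by
    unfold TS
    symm
    apply Finset.sum_subset (Finset.Icc_subset_Icc le_rfl hK1c)
    intro K hK hK'
    have h1 : c K = 0 := by
      by_contra h2
      apply hK'
      have h3 : K ≤ K1 := Finset.le_sup (f := id) (Finset.mem_filter.2 ⟨hK, h2⟩)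
      exact Finset.mem_Icc.2 ⟨(Finset.mem_Icc.1 hK).1, h3⟩
    rw [h1, C_0]; ring
  refine ⟨K1, c, κ, N1, Y, hK1a, hK1b, fun K hK => hNle K (hK.trans hK1c), ?_, ?_, ?_⟩
  · rw [← hTS]; exact hfin
  · have h1 := congrArg (br p) hfin
    rw [hbS1, br_add, br_add, br_mul p _ (H + C κ), br_add p H, hpH, br_C, br_mul p _ Y,
      br_mul p _ (q ^ (l1 + N1)), br_mul p (C (1 / (β : k))), br_C, br_pow p q, hpq, br_pow p p,
      hpp, br_pow p p, hpp] at h1
    have h2 : p ∣ br p Y + C (α / (β : k)) * q ^ (l1 + N1) := by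
      apply dvd_of_pow hp0 (t := k1 + 1) (s := J) (by omega)
      have h3 : (C (α / (β : k)) : Pol k 2) = C (1 / (β : k)) * C (α : k) := by
        rw [← C_mul]; congr 1; ring
      have h4 : p ^ (k1 + 1) * (br p Y + C (α / (β : k)) * q ^ (l1 + N1)) =
          - br p (TS p q F0 k1 l1 w a N0 N1 c) := by
        rw [h3]
        linear_combination -h1
      rw [h4]
      exact (dvd_TS p p q F0 _ hpp hpq hFp _ _ _ _ _ _ _).neg_right
    rw [← hch.ker, map_add, map_mul, map_pow] at h2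
    have h5 : Θ (C (α / (β : k))) = algebraMap k L (α / (β : k)) := Θ.commutes _
    rw [h5] at h2
    rw [map_neg]
    linear_combination h2
  · have h1 := congrArg (br q) hfin
    rw [hbS2, br_add, br_add, br_mul q _ (H + C κ), br_add q H, hqH, br_C, br_mul q _ Y,
      br_mul q _ (q ^ (l1 + N1)), br_mul q (C (1 / (β : k))), br_C, br_pow q q, hqq, br_pow q p,
      hqp, br_pow q p, hqp] at h1
    apply dvd_of_pow hp0 (t := k1 + 1) (s := J) (by omega)
    have h4 : p ^ (k1 + 1) * br q Y = - br q (TS p q F0 k1 l1 w a N0 N1 c) := by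
      linear_combination -h1 - (p ^ k1 * q ^ (l1 + N1 + 1)) * hCb
    rw [h4]
    exact (dvd_TS q p q F0 _ hqp hqq hFq _ _ _ _ _ _ _).neg_right

end Pool.Agent.H79.SYA
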