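import Pool.Agent.H19.SYA.TA

/-!
Symplectic torus actions on affine four-space (MP_51eb24_ag): row SUA.
-/

set_option autoImplicit false

namespace Pool.Agent.H79.SYA

open MvPolynomial Pool.Agent.H2.ST Pool.Agent.H15.TG Pool.Agent.H19.SYA

theorem prod_zz {L : Type} [Field L] {x : L} (hx : x ≠ 0) {ι : Type} (s : Finset ι)
    (f : ι → ℤ) : ∏ i ∈ s, x ^ f i = x ^ ∑ i ∈ s, f i := by
  classical
  induction s using Finset.induction_on with
  | empty => simp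
  | insert a s ha ih => rw [Finset.prod_insert ha, Finset.sum_insert ha, zpow_add₀ hx, ih]

theorem pf_SUA (hCHT : T_CHT) (hCHR : T_CHR) : T_SUA := by
  intro k _ _ _ W H y w K n g e ω l hy hcs r a h U hpr hK hW hD hU hbr
  have hdg : ∀ i, ¬ h ∣ g i := fun i hi =>
    hD (hi.trans (Finset.dvd_prod_of_mem g (Finset.mem_univ i)))
  by_cases hUd : h ∣ U
  · exact ⟨0, 0, K.zero_mem, by simpa using hUd⟩
  have hNC : NC h := by
    rintro ⟨c, hc⟩
    by_cases h0 : c = 0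
    · exact hpr.ne_zero (by rw [hc, h0, C_0])
    · exact hpr.not_unit (by rw [hc]; exact (isUnit_iff_ne_zero.2 h0).map C)
  have hω : ∀ i, 0 < ω i := fun i => by
    have h1 := hcs.eo i
    have h2 := hcs.lp
    rcases Nat.eq_zero_or_pos (ω i) with h3 | h3
    · rw [h3, Nat.mul_zero] at h1
      omega
    · exact h3
  have hGp : Gp W h (g 0) r ((ω 0 : ℕ) : ℤ) :=
    { pg := hpr, hg := hW, hf := hcs.gw 0, pa := hcs.ps r h hK hW hNC,
      pb := by exact_mod_cast hω 0, lg := hcs.ln h hK, lf := hcs.ln _ (hcs.gK 0),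
      gf := hcs.cm h hK _ (hcs.gK 0), nd := hdg 0 }
  obtain ⟨L, iL, iA, Θ, v, wr, m, hch⟩ := hCHT k W H y w h (g 0) r (ω 0) hy hGp
  obtain ⟨c, j, hc, hUj, haj⟩ := hCHR k W H h (g 0) r (ω 0) L Θ v wr m hch a U hU
    (hbr h hK) (hbr _ (hcs.gK 0)) hUd
  have hgi : ∀ i, ∃ (c : k) (j : ℤ), c ≠ 0 ∧ Θ (g i) = algebraMap k L c * v 0 ^ j ∧
      ((ω i : ℕ) : ℤ) = j * wr := fun i =>
    hCHR k W H h (g 0) r (ω 0) L Θ v wr m hch (ω i) (g i) (hcs.gw i)
      (by rw [hcs.cm h hK _ (hcs.gK i)]; exact dvd_zero _)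
      (by rw [hcs.cm _ (hcs.gK 0) _ (hcs.gK i)]; exact dvd_zero _) (hdg i)
  choose ci ji hci hgj hωj using hgi
  obtain ⟨b, hb⟩ := hcs.one
  have hwr : (wr : ℤ) = 1 := by
    have h1 : (wr : ℤ) * ∑ i, b i * ji i = 1 := by
      rw [← hb, Finset.mul_sum]
      refine Finset.sum_congr rfl fun i _ => ?_
      rw [hωj i]; ring
    have h2 : (wr : ℤ) ∣ 1 := ⟨_, h1.symm⟩
    exact Int.eq_one_of_dvd_one (by positivity) h2
  have hv0 : v 0 ≠ 0 := hch.ind.ne_zero 0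
  rw [hwr, mul_one] at haj
  have hji : ∀ i, ji i = ((ω i : ℕ) : ℤ) := fun i => by rw [hωj i, hwr, mul_one]
  -- the exponents
  obtain ⟨N, hN⟩ : ∃ N : ℕ, ∀ i, 0 ≤ (N : ℤ) + a * b i := by
    refine ⟨∑ i, (a * b i).natAbs, fun i => ?_⟩
    have h1 : (a * b i).natAbs ≤ ∑ i, (a * b i).natAbs :=
      Finset.single_le_sum (f := fun i => (a * b i).natAbs) (fun _ _ => Nat.zero_le _)
        (Finset.mem_univ i)
    have h2 : (((a * b i).natAbs : ℕ) : ℤ) ≤ ((∑ i, (a * b i).natAbs : ℕ) : ℤ) := by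
      exact_mod_cast h1
    have h3 : -(((a * b i).natAbs : ℕ) : ℤ) ≤ a * b i := by
      rw [Int.natCast_natAbs]; exact neg_abs_le _
    linarith
  have hE : ∀ i, ((((N : ℤ) + a * b i).toNat : ℕ) : ℤ) = (N : ℤ) + a * b i := fun i =>
    Int.toNat_of_nonneg (hN i)
  have hcm : (∏ i, ci i ^ ((N : ℤ) + a * b i).toNat) ≠ 0 :=
    Finset.prod_ne_zero_iff.2 fun i _ => pow_ne_zero _ (hci i)
  refine ⟨N, C ((∏ i, ci i) ^ N * c / ∏ i, ci i ^ ((N : ℤ) + a * b i).toNat) *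
    ∏ i, g i ^ ((N : ℤ) + a * b i).toNat, ?_, ?_⟩
  · refine K.mul_mem (K.algebraMap_mem _) (K.prod_mem fun i _ => K.pow_mem (hcs.gK i) _)
  · rw [← hch.ker, map_sub, map_mul, map_mul, map_pow, map_prod, map_prod, hUj, ← haj]
    have h1 : ∏ i, Θ (g i) = algebraMap k L (∏ i, ci i) * v 0 ^ (∑ i, ((ω i : ℕ) : ℤ)) := by
      rw [map_prod, ← prod_zz hv0, ← Finset.prod_mul_distrib]
      refine Finset.prod_congr rfl fun i _ => ?_
      rw [hgj i, hji i]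
    have h2 : ∏ i, Θ (g i ^ ((N : ℤ) + a * b i).toNat) =
        algebraMap k L (∏ i, ci i ^ ((N : ℤ) + a * b i).toNat) *
          v 0 ^ ((N : ℤ) * (∑ i, ((ω i : ℕ) : ℤ)) + a) := by
      have h3 : (N : ℤ) * (∑ i, ((ω i : ℕ) : ℤ)) + a =
          ∑ i, ((ω i : ℕ) : ℤ) * ((N : ℤ) + a * b i) := by
        have h4 : ∑ i, ((ω i : ℕ) : ℤ) * ((N : ℤ) + a * b i) =
            (N : ℤ) * (∑ i, ((ω i : ℕ) : ℤ)) + a * ∑ i, b i * ((ω i : ℕ) : ℤ) := by
          rw [Finset.mul_sum, Finset.mul_sum, ← Finset.sum_add_distrib]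
          exact Finset.sum_congr rfl fun i _ => by ring
        rw [h4, hb, mul_one]
      rw [h3, map_prod, ← prod_zz hv0, ← Finset.prod_mul_distrib]
      refine Finset.prod_congr rfl fun i _ => ?_
      have h6 : (v 0 ^ ((ω i : ℕ) : ℤ)) ^ ((N : ℤ) + a * b i) =
          (v 0 ^ ((ω i : ℕ) : ℤ)) ^ ((N : ℤ) + a * b i).toNat := by
        rw [← zpow_natCast (v 0 ^ ((ω i : ℕ) : ℤ)), hE i]
      rw [map_pow, map_pow, hgj i, hji i, mul_pow, zpow_mul, h6]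
    have h5 : Θ (C ((∏ i, ci i) ^ N * c / ∏ i, ci i ^ ((N : ℤ) + a * b i).toNat)) =
        algebraMap k L ((∏ i, ci i) ^ N * c / ∏ i, ci i ^ ((N : ℤ) + a * b i).toNat) :=
      Θ.commutes _
    have hcm' : algebraMap k L (∏ i, ci i ^ ((N : ℤ) + a * b i).toNat) ≠ 0 := by
      rw [Ne, map_eq_zero]; exact hcm
    rw [h1, h2, h5, mul_pow, zpow_add₀ hv0, map_div₀, map_mul, map_pow,
      mul_comm (N : ℤ), zpow_mul, zpow_natCast]
    field_simp
    ring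

end Pool.Agent.H79.SYA
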