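import Pool.Agent.H19.SYA.TB
import Pool.Agent.H2.ST.Basic2

/-!
Symplectic torus actions on affine four-space (MP_51eb24_ag): row SWQ.
-/

set_option autoImplicit false

namespace Pool.Agent.H79.SYA

open MvPolynomial Pool.Agent.H2.ST Pool.Agent.H15.TG Pool.Agent.H19.SYA

/-- polynomials in `p, q, H, S` in terms of `q, p, H, S'` -/
theorem swq_gen {k : Type} [Field k] (p q H S S' : Pol k 2) (R : MvPolynomial (Fin 4) k)
    (hR : q * S = aeval ![q, p, H, S'] R) (P : MvPolynomial (Fin 4) k) :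
    ∃ (M : ℕ) (Q : MvPolynomial (Fin 4) k),
      q ^ M * aeval ![p, q, H, S] P = aeval ![q, p, H, S'] Q := by
  induction P using MvPolynomial.induction_on with
  | C a => exact ⟨0, C a, by rw [pow_zero, one_mul, aeval_C, aeval_C]⟩
  | add P1 P2 h1 h2 =>
    obtain ⟨M1, Q1, h1⟩ := h1
    obtain ⟨M2, Q2, h2⟩ := h2
    refine ⟨M1 + M2, X 0 ^ M2 * Q1 + X 0 ^ M1 * Q2, ?_⟩
    rw [map_add, map_add, map_mul, map_mul, ← h1, ← h2, map_pow, map_pow, aeval_X]
    simp only [Matrix.cons_val_zero]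
    ring
  | mul_X P i h =>
    obtain ⟨M, Q, h⟩ := h
    fin_cases i
    · refine ⟨M, Q * X 1, ?_⟩
      rw [map_mul, map_mul, ← h, aeval_X, aeval_X]
      simp only [Fin.zero_eta, Matrix.cons_val_zero, Matrix.cons_val_one]
      ring
    · refine ⟨M, Q * X 0, ?_⟩
      rw [map_mul, map_mul, ← h, aeval_X, aeval_X]
      simp only [Fin.mk_one, Matrix.cons_val_zero, Matrix.cons_val_one]
      ring
    · refine ⟨M, Q * X 2, ?_⟩
      rw [map_mul, map_mul, ← h, aeval_X, aeval_X]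
      simp only [Fin.reduceFinMk, Matrix.cons_val]
      ring
    · refine ⟨M + 1, Q * R, ?_⟩
      rw [map_mul, map_mul, ← h, ← hR, aeval_X]
      simp only [Fin.reduceFinMk, Matrix.cons_val]
      ring

theorem pf_SWQ : T_SWQ := by
  intro k _ _ _ W H y w p q S α β k1 l1 hy hpr hq
  have hg : Gr W := hy.toGr
  have hα : (α : k) ≠ 0 := Int.cast_ne_zero.2 hpr.pa.ne'
  have hβ : (β : k) ≠ 0 := Int.cast_ne_zero.2 hpr.pb.ne'
  have hpH : br p H = C (α : k) * p := by
    rw [hy.HE α p hpr.hg, MvPolynomial.smul_eq_C_mul]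
  have hqH : br q H = C (β : k) * q := by
    rw [hy.HE β q hpr.hf, MvPolynomial.smul_eq_C_mul]
  have hpq : br p q = 0 := hpr.gf
  have hqp : br q p = 0 := by rw [br_anti, hpq, neg_zero]
  have hp1 : br p (p ^ k1 * q ^ l1) = 0 := by
    rw [br_mul, br_pow, br_pow, br_self, hpq, mul_zero, mul_zero, mul_zero, mul_zero, add_zero]
  have hq1 : br q (p ^ k1 * q ^ l1) = 0 := by
    rw [br_mul, br_pow, br_pow, br_self, hqp, mul_zero, mul_zero, mul_zero, mul_zero, add_zero]
  set S' : Pol k 2 := C (1 / (α : k)) * (p ^ k1 * q ^ l1 * H - C (β : k) * q * S) with hS'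
  have hCa : (C (1 / (α : k)) : Pol k 2) * C (α : k) = 1 := by
    rw [← C_mul, one_div_mul_cancel hα, C_1]
  have hCb : (C (1 / (β : k)) : Pol k 2) * C (β : k) = 1 := by
    rw [← C_mul, one_div_mul_cancel hβ, C_1]
  have hpS' : br p S' = q ^ l1 * p ^ (k1 + 1) := by
    rw [hS', br_mul, br_C, mul_zero, add_zero, br_sub, br_mul p (p ^ k1 * q ^ l1), hp1, hpH,
      br_mul p (C (β : k) * q), br_mul p (C (β : k)), br_C, hpq, hpr.pS]
    linear_combination (p ^ k1 * q ^ l1 * p) * hCa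
  have hqS' : br q S' = 0 := by
    rw [hS', br_mul, br_C, mul_zero, add_zero, br_sub, br_mul q (p ^ k1 * q ^ l1), hq1, hqH,
      br_mul q (C (β : k) * q), br_mul q (C (β : k)), br_C, br_self, hpr.qS]
    ring
  have hqS : q * S = C (1 / (β : k)) * (p ^ k1 * q ^ l1 * H - C (α : k) * S') := by
    rw [hS']
    linear_combination (C (1 / (β : k)) * (p ^ k1 * q ^ l1 * H - C (β : k) * q * S)) * hCa -
      (q * S) * hCb
  have hw : S' ∈ W (l1 * β + ((k1 + 1 : ℕ) : ℤ) * α - α) := by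
    have h1 : p ^ k1 * q ^ l1 * H ∈ W (l1 * β + ((k1 + 1 : ℕ) : ℤ) * α - α) := by
      have h2 := mul_mem_gr hg (mul_mem_gr hg (pow_mem_gr hg hpr.hg k1)
        (pow_mem_gr hg hpr.hf l1)) hy.H0
      have h3 : k1 • α + l1 • β + 0 = l1 * β + ((k1 + 1 : ℕ) : ℤ) * α - α := by
        rw [nsmul_eq_mul, nsmul_eq_mul]; push_cast; ring
      rwa [h3] at h2
    have h4 : C (β : k) * q * S ∈ W (l1 * β + ((k1 + 1 : ℕ) : ℤ) * α - α) := by
      have h2 := mul_mem_gr hg (mul_mem_gr hg (algebraMap_mem_gr hg (β : k)) hpr.hf) hpr.hS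
      have h3 : 0 + β + (k1 * α + l1 * β - β) = l1 * β + ((k1 + 1 : ℕ) : ℤ) * α - α := by
        push_cast; ring
      rwa [h3] at h2
    rw [hS', ← MvPolynomial.smul_eq_C_mul]
    exact (W _).smul_mem _ ((W _).sub_mem h1 h4)
  refine { pg := hq, hg := hpr.hf, hf := hpr.hg, pa := hpr.pb, pb := hpr.pa, lg := hpr.lf,
           lf := hpr.lg, gf := hqp, nd := ?_, hS := hw, pS := hqS', qS := hpS', gen := ?_,
           cop := hpr.cop.symm }
  · intro h
    exact hpr.nd ((hq.dvd_prime_iff_associated hpr.pg).1 h).symm.dvd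
  · intro F
    obtain ⟨N, P, hP⟩ := hpr.gen F
    obtain ⟨M, Q, hQ⟩ := swq_gen p q H S S'
      (C (1 / (β : k)) * (X 1 ^ k1 * X 0 ^ l1 * X 2 - C (α : k) * X 3)) (by
        rw [hqS]
        simp only [map_mul, map_sub, map_pow, aeval_X, aeval_C, Matrix.cons_val_zero,
          Matrix.cons_val_one, Matrix.cons_val]
        rfl) P
    refine ⟨N + M, X 1 ^ M * Q, ?_⟩
    rw [map_mul, ← hQ, ← hP, map_pow, aeval_X]
    simp only [Matrix.cons_val_one, Matrix.cons_val_zero]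
    ring

end Pool.Agent.H79.SYA
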